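import Mathlib

/-!
A checker for certificate trees about seven points in the plane.

A difference `p_j - p_i` with `i < j < 7` is coded by the number `7 i + j`.  `cr x y e f` is the
cross product of the differences coded by `e` and `f`.
-/

set_option autoImplicit false

namespace Pool.Agent.H44.Seven

/-- cross product of the differences coded by `e` and `f` -/
def cr (x y : ℕ → ℝ) (e f : ℕ) : ℝ :=
  (x (e % 7) - x (e / 7)) * (y (f % 7) - y (f / 7)) -
    (y (e % 7) - y (e / 7)) * (x (f % 7) - x (f / 7))

/-- `e` is the code of a difference -/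
def valid (e : ℕ) : Bool := Nat.blt e 49 && Nat.blt (e / 7) (e % 7)

/-- the packed value of the monomial `x_a y_b` -/
def pw (a b : ℕ) : ℕ := cond (Nat.blt a 6 && Nat.blt b 6) (2 ^ (192 * a + 32 * b)) 0

/-- positive part of the packed cross product -/
def crP (e f : ℕ) : ℕ :=
  pw (e % 7) (f % 7) + pw (e / 7) (f / 7) + pw (f / 7) (e % 7) + pw (f % 7) (e / 7)

/-- negative part of the packed cross product -/
def crN (e f : ℕ) : ℕ :=
  pw (e % 7) (f / 7) + pw (e / 7) (f % 7) + pw (f % 7) (e % 7) + pw (f / 7) (e / 7)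

/-- the bit number `k` of `m` -/
def bit (m k : ℕ) : Bool := Nat.beq (Nat.land (Nat.shiftRight m k) 1) 1

/-- `cross e f > 0` is known in the state `(p, n)` -/
def isPos (p n e f : ℕ) : Bool := cond (Nat.blt e f) (bit p (49 * e + f)) (bit n (49 * f + e))

/-- `cross e f < 0` is known in the state `(p, n)` -/
def isNeg (p n e f : ℕ) : Bool := cond (Nat.blt e f) (bit n (49 * e + f)) (bit p (49 * f + e))

/-- certificate trees -/
inductive Tree : Type
  | lp (c : List ℕ) : Tree
  | gp (a b c d : ℕ) : Tree
  | br (e f : ℕ) (t₁ t₂ : Tree) : Tree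

/-- `m * |cross e f|` contributes `u` to the positive and `v` to the negative part; `k` is called
with the contributions. The sign must be known. -/
def withAbs (p n m e f : ℕ) (k : ℕ → ℕ → Bool) : Bool :=
  valid e && (valid f &&
    cond (isPos p n e f) (k (m * crP e f) (m * crN e f))
      (cond (isNeg p n e f) (k (m * crN e f) (m * crP e f)) false))

/-- the check of a linear certificate -/
def go (e₀ f₀ p n : ℕ) : List ℕ → ℕ → ℕ → ℕ → Bool → Bool
  | [], P, N, b, st => st && (Nat.beq P N && Nat.blt b (2 ^ 28))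
  | c :: cs, P, N, b, st =>
    let ty := c % 8
    let f := (c / 8) % 64
    let e := (c / 512) % 64
    let d := (c / 32768) % 64
    let m := c / 2097152
    cond (Nat.beq ty 0)
      (valid e && (valid f &&
        go e₀ f₀ p n cs (P + m * (crP e₀ f₀ + crN e f)) (N + m * (crN e₀ f₀ + crP e f))
          (b + 2 * m) st))
    (cond (Nat.beq ty 1)
      (valid e && (valid f &&
        go e₀ f₀ p n cs (P + m * (crP e₀ f₀ + crP e f)) (N + m * (crN e₀ f₀ + crN e f))
          (b + 2 * m) st))
    (cond (Nat.beq ty 2)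
      (withAbs p n m e f fun u v =>
        go e₀ f₀ p n cs (P + u) (N + v) (b + m) (st || Nat.blt 0 m))
    (cond (Nat.beq ty 3)
      (withAbs p n (2 * m) d e fun u v => withAbs p n (2 * m) d f fun u' v' =>
        withAbs p n m e f fun u'' v'' =>
        go e₀ f₀ p n cs (P + (u + u' + v'')) (N + (v + v' + u'')) (b + 5 * m) (st || Nat.blt 0 m))
    (cond (Nat.beq ty 4)
      (go e₀ f₀ p n cs (P + m * crP e₀ f₀) (N + m * crN e₀ f₀) (b + m) (st || Nat.blt 0 m))
    (cond (Nat.beq ty 5)
      (Nat.beq f₀ 17 &&
        go e₀ f₀ p n cs (P + m * (crP 2 1 + crN 2 17)) (N + m * (crN 2 1 + crP 2 17))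
          (b + 2 * m) st)
    (cond (Nat.beq ty 6)
      (Nat.beq f₀ 17 &&
        go e₀ f₀ p n cs (P + m * (crP 1 17 + 2 * crN 2 1)) (N + m * (crN 1 17 + 2 * crP 2 1))
          (b + 3 * m) st)
    false))))))

/-- the sign of `cross e f` is known -/
def known (p n e f : ℕ) : Bool := isPos p n e f || isNeg p n e f

/-- three-term Grassmann-Plücker sign check -/
def gpOK (p n a b c d : ℕ) : Bool :=
  valid a && (valid b && (valid c && (valid d && (
  known p n a b && (known p n c d && (known p n a c && (known p n b d && (known p n a d &&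
  (known p n b c &&
    (cond (isPos p n a b == isPos p n c d)
      (!(isPos p n a c == isPos p n b d) && (isPos p n a d == isPos p n b c))
      ((isPos p n a c == isPos p n b d) && !(isPos p n a d == isPos p n b c))))))))))))

/-- the checker -/
def chk (e₀ f₀ : ℕ) : Tree → ℕ → ℕ → Bool
  | .lp c, p, n => go e₀ f₀ p n c 0 0 0 false
  | .gp a b c d, p, n => gpOK p n a b c d
  | .br e f t₁ t₂, p, n =>
    valid e && (valid f && (Nat.blt e f &&
      (chk e₀ f₀ t₁ p (Nat.lor n (Nat.pow 2 (49 * e + f))) &&
       chk e₀ f₀ t₂ (Nat.lor p (Nat.pow 2 (49 * e + f))) n)))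

end Pool.Agent.H44.Seven
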