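import Pool.Agent.H44.Seven.Norm

/-!
The theorem on seven points in a two-dimensional normed space.
-/

set_option autoImplicit false

namespace Pool.Agent.H44.Seven

open Filter Topology

lemma quad_finite (a b c : ℝ) (hc : c ≠ 0) : {t : ℝ | a + b * t + c * t ^ 2 = 0}.Finite := by
  have hp : (Polynomial.C c * Polynomial.X ^ 2 + Polynomial.C b * Polynomial.X +
      Polynomial.C a : Polynomial ℝ) ≠ 0 := by
    intro h
    have h1 := congrArg (fun q : Polynomial ℝ => q.coeff 2) h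
    simp at h1
    exact hc h1
  refine (Polynomial.finite_setOfPred_isRoot hp).subset ?_
  intro t ht
  have ht' : a + b * t + c * t ^ 2 = 0 := ht
  simp only [Set.mem_ofPred_eq, Polynomial.IsRoot.def, Polynomial.eval_add, Polynomial.eval_mul,
    Polynomial.eval_C, Polynomial.eval_pow, Polynomial.eval_X]
  linarith

lemma coef_ne : ∀ i j k l : Fin 7, i ≠ j → k ≠ l → ¬ (i = k ∧ j = l) → ¬ (i = l ∧ j = k) →
    ((2 : ℤ) ^ (j : ℕ) - 2 ^ (i : ℕ)) * (4 ^ (l : ℕ) - 4 ^ (k : ℕ)) -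
      (4 ^ (j : ℕ) - 4 ^ (i : ℕ)) * (2 ^ (l : ℕ) - 2 ^ (k : ℕ)) ≠ 0 := by
  decide +kernel

theorem main_aux (E : Type) [NormedAddCommGroup E] [NormedSpace ℝ E]
    (hE : Module.finrank ℝ E = 2) (p : Fin 7 → E)
    (hc : ∀ i j k l : Fin 7, k ≠ l → dist (p i) (p j) < 2 * dist (p k) (p l)) : False := by
  have : Module.Finite ℝ E := Module.finite_of_finrank_pos (by omega)
  let b : Module.Basis (Fin 2) ℝ E := Module.finBasisOfFinrankEq ℝ E hE
  let X : E →ₗ[ℝ] ℝ := b.coord 0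
  let Y : E →ₗ[ℝ] ℝ := b.coord 1
  have ident : ∀ d e f : E, (X e * Y f - Y e * X f) • d =
      (X d * Y f - Y d * X f) • e + (X e * Y d - Y e * X d) • f := by
    intro d e f
    apply b.ext_elem
    intro i
    have h0 : ∀ v : E, b.repr v 0 = X v := fun v => rfl
    have h1 : ∀ v : E, b.repr v 1 = Y v := fun v => rfl
    fin_cases i
    · simp only [Fin.zero_eta, map_add, map_smul, Finsupp.add_apply, Finsupp.smul_apply,
        smul_eq_mul, h0]
      ring
    · simp only [Fin.mk_one, map_add, map_smul, Finsupp.add_apply, Finsupp.smul_apply,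
        smul_eq_mul, h1]
      ring
  let r : Fin 7 → E := fun i => (2 : ℝ) ^ (i : ℕ) • b 0 + (4 : ℝ) ^ (i : ℕ) • b 1
  let q : ℝ → Fin 7 → E := fun t i => p i + t • r i
  have Xr : ∀ i, X (r i) = 2 ^ (i : ℕ) := by
    intro i
    simp [X, r]
  have Yr : ∀ i, Y (r i) = 4 ^ (i : ℕ) := by
    intro i
    simp [Y, r]
  have hev : ∀ᶠ t in 𝓝 (0 : ℝ), ∀ i j k l : Fin 7, k ≠ l →
      dist (q t i) (q t j) < 2 * dist (q t k) (q t l) := by
    rw [eventually_all]; intro i
    rw [eventually_all]; intro j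
    rw [eventually_all]; intro k
    rw [eventually_all]; intro l
    rw [eventually_imp_distrib_left]
    intro hkl
    have c1 : Continuous fun t : ℝ => dist (q t i) (q t j) := by
      simp only [q]
      fun_prop
    have c2 : Continuous fun t : ℝ => 2 * dist (q t k) (q t l) := by
      simp only [q]
      fun_prop
    apply (c1.tendsto 0).eventually_lt (c2.tendsto 0)
    simpa [q] using hc i j k l hkl
  obtain ⟨ε, hε, hball⟩ := Metric.eventually_nhds_iff.mp hev
  let I : Finset (Fin 7 × Fin 7 × Fin 7 × Fin 7) := Finset.univ.filter fun s =>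
    s.1 ≠ s.2.1 ∧ s.2.2.1 ≠ s.2.2.2 ∧ ¬ (s.1 = s.2.2.1 ∧ s.2.1 = s.2.2.2) ∧
      ¬ (s.1 = s.2.2.2 ∧ s.2.1 = s.2.2.1)
  let bad : Set ℝ := ⋃ s ∈ I, {t : ℝ | w (fun i => X (q t i)) (fun i => Y (q t i))
    s.1 s.2.1 s.2.2.1 s.2.2.2 = 0}
  have hbad : bad.Finite := by
    apply Set.Finite.biUnion (Finset.finite_toSet I)
    rintro ⟨i, j, k, l⟩ hs
    have hs' : i ≠ j ∧ k ≠ l ∧ ¬ (i = k ∧ j = l) ∧ ¬ (i = l ∧ j = k) := by
      simpa [I] using hs
    have hco := coef_ne i j k l hs'.1 hs'.2.1 hs'.2.2.1 hs'.2.2.2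
    have hco' : ((2 : ℝ) ^ (j : ℕ) - 2 ^ (i : ℕ)) * (4 ^ (l : ℕ) - 4 ^ (k : ℕ)) -
      (4 ^ (j : ℕ) - 4 ^ (i : ℕ)) * (2 ^ (l : ℕ) - 2 ^ (k : ℕ)) ≠ 0 := by
      exact_mod_cast hco
    refine (quad_finite ((X (p j) - X (p i)) * (Y (p l) - Y (p k)) -
      (Y (p j) - Y (p i)) * (X (p l) - X (p k)))
      ((X (p j) - X (p i)) * (4 ^ (l : ℕ) - 4 ^ (k : ℕ)) +
        (2 ^ (j : ℕ) - 2 ^ (i : ℕ)) * (Y (p l) - Y (p k)) -
        ((Y (p j) - Y (p i)) * (2 ^ (l : ℕ) - 2 ^ (k : ℕ)) +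
        (4 ^ (j : ℕ) - 4 ^ (i : ℕ)) * (X (p l) - X (p k)))) _ hco').subset ?_
    intro t ht
    simp only [Set.mem_ofPred_eq] at ht ⊢
    rw [← ht]
    simp only [w, q, map_add, map_smul, smul_eq_mul, Xr, Yr]
    ring
  have hinf : (Set.Ioo (-ε) ε \ bad).Infinite := (Set.Ioo_infinite (by linarith)).sdiff hbad
  obtain ⟨t, ht, htb⟩ := hinf.nonempty
  have hd := hball (show dist t 0 < ε by
    rw [Real.dist_eq, sub_zero, abs_lt]
    exact ⟨ht.1, ht.2⟩)
  have gen : ∀ i j k l : Fin 7, i ≠ j → k ≠ l → ¬ (i = k ∧ j = l) → ¬ (i = l ∧ j = k) →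
      w (fun i => X (q t i)) (fun i => Y (q t i)) i j k l ≠ 0 := by
    intro i j k l h1 h2 h3 h4 h0
    apply htb
    simp only [bad, Set.mem_iUnion]
    refine ⟨(i, j, k, l), ?_, h0⟩
    simp only [I, Finset.mem_filter, Finset.mem_univ, true_and]
    exact ⟨h1, h2, h3, h4⟩
  apply no_good (px := fun i => X (q t i)) (py := fun i => Y (q t i))
  refine ⟨?_, gen⟩
  intro a c i j k l hac hne
  -- the three differences
  have hw : ∀ i j k l : Fin 7, w (fun i => X (q t i)) (fun i => Y (q t i)) i j k l =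
      X (q t j - q t i) * Y (q t l - q t k) - Y (q t j - q t i) * X (q t l - q t k) := by
    intro i j k l
    simp only [w, map_sub]
  have hid := ident (q t c - q t a) (q t j - q t i) (q t l - q t k)
  rw [← hw, ← hw, ← hw] at hid
  have hnorm := congrArg norm hid
  rw [norm_smul, Real.norm_eq_abs] at hnorm
  have hle := norm_add_le (w (fun i => X (q t i)) (fun i => Y (q t i)) a c k l • (q t j - q t i))
    (w (fun i => X (q t i)) (fun i => Y (q t i)) i j a c • (q t l - q t k))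
  rw [← hnorm, norm_smul, norm_smul, Real.norm_eq_abs, Real.norm_eq_abs] at hle
  have hsw : |w (fun i => X (q t i)) (fun i => Y (q t i)) i j a c| =
      |w (fun i => X (q t i)) (fun i => Y (q t i)) a c i j| := by
    rw [show w (fun i => X (q t i)) (fun i => Y (q t i)) i j a c =
      - w (fun i => X (q t i)) (fun i => Y (q t i)) a c i j by simp only [w]; ring, abs_neg]
  rw [hsw] at hle
  have hpos := abs_pos.mpr hne
  have d1 : ‖q t j - q t i‖ < 2 * ‖q t c - q t a‖ := by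
    have := hd j i c a hac.symm
    rwa [dist_eq_norm, dist_eq_norm] at this
  have d2 : ‖q t l - q t k‖ < 2 * ‖q t c - q t a‖ := by
    have := hd l k c a hac.symm
    rwa [dist_eq_norm, dist_eq_norm] at this
  have d0 : 0 < ‖q t c - q t a‖ := by
    have := norm_nonneg (q t j - q t i)
    linarith
  set W := |w (fun i => X (q t i)) (fun i => Y (q t i)) i j k l|
  set U := |w (fun i => X (q t i)) (fun i => Y (q t i)) a c i j|
  set V := |w (fun i => X (q t i)) (fun i => Y (q t i)) a c k l|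
  have hU : 0 ≤ U := abs_nonneg _
  have hV : 0 ≤ V := abs_nonneg _
  have e1 : V * ‖q t j - q t i‖ ≤ V * (2 * ‖q t c - q t a‖) := mul_le_mul_of_nonneg_left d1.le hV
  have e2 : U * ‖q t l - q t k‖ ≤ U * (2 * ‖q t c - q t a‖) := mul_le_mul_of_nonneg_left d2.le hU
  have hUV : 0 < U ∨ 0 < V := by
    by_contra hcon
    rw [not_or, not_lt, not_lt] at hcon
    have hU0 : U = 0 := le_antisymm hcon.1 hU
    have hV0 : V = 0 := le_antisymm hcon.2 hV
    rw [hU0, hV0] at hle
    have : 0 < W * ‖q t c - q t a‖ := mul_pos hpos d0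
    linarith
  have key : W * ‖q t c - q t a‖ < (2 * U + 2 * V) * ‖q t c - q t a‖ := by
    rcases hUV with h | h
    · have := mul_lt_mul_of_pos_left d2 h
      linarith
    · have := mul_lt_mul_of_pos_left d1 h
      linarith
  exact lt_of_mul_lt_mul_right key d0.le

end Pool.Agent.H44.Seven
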