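import Pool.Agent.H44.Seven.Checker

/-!
A certificate tree about seven points in the plane, see the file Checker.
-/

set_option autoImplicit false

namespace Pool.Agent.H44.Seven

def tB : Tree := (.br 2 17
 (.br 1 13
 (.lp [2097825, 2097770])
 (.br 13 20
 (.lp [2103970, 2100296])
 (.br 1 20
 (.br 1 12
 (.lp [2097817, 2097762])
 (.br 2 9
 (.lp [2523811, 4195402, 6292746, 6292682, 2103970, 6292810, 6292618])
 (.br 2 10
 (.lp [2523811, 4195410, 6292746, 6292682, 2103970, 6292810, 2098314])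
 (.br 2 6
 (.br 2 20
 (.br 2 5
 (.br 2 13
 (.gp 2 13 1 20)
 (.br 2 3
 (.br 1 3
 (.lp [2097690, 2097801])
 (.br 3 13
 (.gp 3 13 1 2)
 (.br 9 17
 (.lp [2101898, 2098760])
 (.br 9 25
 (.br 1 25
 (.br 1 34
 (.lp [2523811, 2917387, 3212299, 2097770, 2655307, 4195466])
 (.lp [4194961, 2196491, 8395426, 5309451, 4195466, 2917451]))
 (.lp [4196424, 2917387, 2196491]))
 (.lp [2917451, 4194961, 2655307])))))
 (.lp [2098202, 2098314])))
 (.lp [2098442, 2098378, 2098218, 2098314]))
 (.lp [2098338, 2098442, 2098378, 2098506, 2098314]))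
 (.lp [2098442, 2098378, 2098226, 2098506, 2098314])))))
 (.lp [2097770, 4195594, 4195530, 2759179, 4195658, 4195466]))))
 (.lp [2098314, 2098256]))

end Pool.Agent.H44.Seven
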