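import Pool.Agent.H44.Seven.Sound
import Pool.Agent.H44.Seven.Tree1
import Pool.Agent.H44.Seven.Tree2

/-!
There is no generic configuration of seven points in the plane such that
`|ω(e,f)| < 2 |ω(d,e)| + 2 |ω(d,f)|` holds for all differences `d, e, f` (with `ω(e,f) ≠ 0`),
where `ω` is the cross product.
-/

set_option autoImplicit false

namespace Pool.Agent.H44.Seven

theorem chkA : chk 1 17 tA (Nat.lor 0 (Nat.pow 2 (49 * 1 + 17)))
    (Nat.lor (Nat.lor (Nat.lor 0 (Nat.pow 2 (49 * 17 + 33))) (Nat.pow 2 (49 * 17 + 34)))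
      (Nat.pow 2 (49 * 17 + 41))) = true := by decide +kernel

theorem chkB : chk 1 2 tB (Nat.lor 0 (Nat.pow 2 (49 * 1 + 2)))
    (Nat.lor (Nat.lor (Nat.lor (Nat.lor (Nat.lor (Nat.lor 0 (Nat.pow 2 (49 * 2 + 25)))
      (Nat.pow 2 (49 * 2 + 26))) (Nat.pow 2 (49 * 2 + 27))) (Nat.pow 2 (49 * 2 + 33)))
      (Nat.pow 2 (49 * 2 + 34))) (Nat.pow 2 (49 * 2 + 41))) = true := by decide +kernel

/-- the cross product of two differences -/
def w (px py : Fin 7 → ℝ) (i j k l : Fin 7) : ℝ :=
  (px j - px i) * (py l - py k) - (py j - py i) * (px l - px k)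

/-- generic configurations with the property we want to refute -/
structure Good (px py : Fin 7 → ℝ) : Prop where
  far : ∀ r s i j k l, r ≠ s → w px py i j k l ≠ 0 →
    |w px py i j k l| < 2 * |w px py r s i j| + 2 * |w px py r s k l|
  gen : ∀ i j k l, i ≠ j → k ≠ l → ¬ (i = k ∧ j = l) → ¬ (i = l ∧ j = k) → w px py i j k l ≠ 0

/-- coordinates indexed by natural numbers, with the last point at the origin -/
def cx (px : Fin 7 → ℝ) (k : ℕ) : ℝ := if h : k < 6 then px ⟨k, by omega⟩ - px 6 else 0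

lemma cx_ge (px : Fin 7 → ℝ) (k : ℕ) (h : 6 ≤ k) : cx px k = 0 := by
  unfold cx
  rw [dif_neg (by omega)]

lemma cx_eq (px : Fin 7 → ℝ) (k : ℕ) (h : k < 7) : cx px k = px ⟨k, h⟩ - px 6 := by
  unfold cx
  by_cases h' : k < 6
  · rw [dif_pos h']
  · rw [dif_neg h']
    have : (⟨k, h⟩ : Fin 7) = 6 := by
      apply Fin.ext
      have : k = 6 := by omega
      simpa using this
    rw [this]
    ring

lemma cr_w (px py : Fin 7 → ℝ) {e f : ℕ} (he : e < 49) (hf : f < 49) :
    cr (cx px) (cx py) e f = w px py ⟨e / 7, by omega⟩ ⟨e % 7, by omega⟩ ⟨f / 7, by omega⟩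
      ⟨f % 7, by omega⟩ := by
  unfold cr w
  rw [cx_eq px (e % 7) (by omega), cx_eq px (e / 7) (by omega), cx_eq px (f % 7) (by omega),
    cx_eq px (f / 7) (by omega), cx_eq py (e % 7) (by omega), cx_eq py (e / 7) (by omega),
    cx_eq py (f % 7) (by omega), cx_eq py (f / 7) (by omega)]
  ring

lemma valid_ne {e : ℕ} (h : valid e = true) : e / 7 < e % 7 := by
  unfold valid at h
  rw [Bool.and_eq_true] at h
  simpa [Nat.blt_eq] using h.2

lemma cfg_of_good {px py : Fin 7 → ℝ} (h : Good px py) {e₀ f₀ : ℕ}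
    (w0 : 0 < cr (cx px) (cx py) e₀ f₀)
    (mx : ∀ i j k l, |w px py i j k l| ≤ cr (cx px) (cx py) e₀ f₀)
    (s5 : f₀ = 17 → cr (cx px) (cx py) 2 17 ≤ cr (cx px) (cx py) 2 1)
    (s6 : f₀ = 17 → 2 * cr (cx px) (cx py) 2 1 ≤ cr (cx px) (cx py) 1 17) :
    Cfg (cx px) (cx py) e₀ f₀ where
  hx := cx_ge px
  hy := cx_ge py
  w0 := w0
  mx := by
    intro e f he hf
    rw [cr_w px py (valid_lt he) (valid_lt hf)]
    exact mx _ _ _ _
  far := by
    intro d e f hd he hf hne
    rw [cr_w px py (valid_lt he) (valid_lt hf)] at hne ⊢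
    rw [cr_w px py (valid_lt hd) (valid_lt he), cr_w px py (valid_lt hd) (valid_lt hf)]
    apply h.far _ _ _ _ _ _ _ hne
    intro heq
    have h1 := valid_ne hd
    have h2 : d / 7 = d % 7 := by simpa using heq
    omega
  ne := by
    intro e f he hf hef
    rw [cr_w px py (valid_lt he) (valid_lt hf)]
    have h1 := valid_ne he
    have h2 := valid_ne hf
    apply h.gen
    · intro heq
      have h3 : e / 7 = e % 7 := by simpa using heq
      omega
    · intro heq
      have h3 : f / 7 = f % 7 := by simpa using heq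
      omega
    · rintro ⟨g1, g2⟩
      have h3 : e / 7 = f / 7 := by simpa using g1
      have h4 : e % 7 = f % 7 := by simpa using g2
      omega
    · rintro ⟨g1, g2⟩
      have h3 : e / 7 = f % 7 := by simpa using g1
      have h4 : e % 7 = f / 7 := by simpa using g2
      omega
  s5 := s5
  s6 := s6

lemma root1 {px py : Fin 7 → ℝ} (h : Good px py) (w0 : 0 < w px py 0 1 2 3)
    (mx : ∀ i j k l, |w px py i j k l| ≤ w px py 0 1 2 3)
    (s5 : w px py 0 2 2 3 ≤ w px py 0 2 0 1) (s6 : 2 * w px py 0 2 0 1 ≤ w px py 0 1 2 3)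
    (o1 : 0 < w px py 4 5 2 3) (o2 : 0 < w px py 5 6 2 3) : False := by
  have c1 : cr (cx px) (cx py) 1 17 = w px py 0 1 2 3 := cr_w px py (by norm_num) (by norm_num)
  have c2 : cr (cx px) (cx py) 2 17 = w px py 0 2 2 3 := cr_w px py (by norm_num) (by norm_num)
  have c3 : cr (cx px) (cx py) 2 1 = w px py 0 2 0 1 := cr_w px py (by norm_num) (by norm_num)
  have c4 : cr (cx px) (cx py) 17 33 = w px py 2 3 4 5 := cr_w px py (by norm_num) (by norm_num)
  have c5 : cr (cx px) (cx py) 17 34 = w px py 2 3 4 6 := cr_w px py (by norm_num) (by norm_num)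
  have c6 : cr (cx px) (cx py) 17 41 = w px py 2 3 5 6 := cr_w px py (by norm_num) (by norm_num)
  have H : Cfg (cx px) (cx py) 1 17 := by
    apply cfg_of_good h
    · rw [c1]; exact w0
    · rw [c1]; exact mx
    · intro _; rw [c2, c3]; exact s5
    · intro _; rw [c1, c3]; exact s6
  refine chk_sound H tA _ _ ?_ chkA
  apply OKst_neg _ (by norm_num)
  · rw [c6]
    unfold w at o2 ⊢
    linarith
  apply OKst_neg _ (by norm_num)
  · rw [c5]
    unfold w at o1 o2 ⊢
    linarith
  apply OKst_neg _ (by norm_num)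
  · rw [c4]
    unfold w at o1 ⊢
    linarith
  apply OKst_pos (OKst_zero _ _) (by norm_num)
  rw [c1]
  exact w0

lemma root2 {px py : Fin 7 → ℝ} (h : Good px py) (w0 : 0 < w px py 0 1 0 2)
    (mx : ∀ i j k l, |w px py i j k l| ≤ w px py 0 1 0 2)
    (o1 : 0 < w px py 3 4 0 2) (o2 : 0 < w px py 4 5 0 2) (o3 : 0 < w px py 5 6 0 2) : False := by
  have c1 : cr (cx px) (cx py) 1 2 = w px py 0 1 0 2 := cr_w px py (by norm_num) (by norm_num)
  have c2 : cr (cx px) (cx py) 2 25 = w px py 0 2 3 4 := cr_w px py (by norm_num) (by norm_num)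
  have c3 : cr (cx px) (cx py) 2 26 = w px py 0 2 3 5 := cr_w px py (by norm_num) (by norm_num)
  have c4 : cr (cx px) (cx py) 2 27 = w px py 0 2 3 6 := cr_w px py (by norm_num) (by norm_num)
  have c5 : cr (cx px) (cx py) 2 33 = w px py 0 2 4 5 := cr_w px py (by norm_num) (by norm_num)
  have c6 : cr (cx px) (cx py) 2 34 = w px py 0 2 4 6 := cr_w px py (by norm_num) (by norm_num)
  have c7 : cr (cx px) (cx py) 2 41 = w px py 0 2 5 6 := cr_w px py (by norm_num) (by norm_num)
  have H : Cfg (cx px) (cx py) 1 2 := by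
    apply cfg_of_good h
    · rw [c1]; exact w0
    · rw [c1]; exact mx
    · intro h'; exact absurd h' (by norm_num)
    · intro h'; exact absurd h' (by norm_num)
  refine chk_sound H tB _ _ ?_ chkB
  apply OKst_neg _ (by norm_num)
  · rw [c7]
    unfold w at o3 ⊢
    linarith
  apply OKst_neg _ (by norm_num)
  · rw [c6]
    unfold w at o2 o3 ⊢
    linarith
  apply OKst_neg _ (by norm_num)
  · rw [c5]
    unfold w at o2 ⊢
    linarith
  apply OKst_neg _ (by norm_num)
  · rw [c4]
    unfold w at o1 o2 o3 ⊢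
    linarith
  apply OKst_neg _ (by norm_num)
  · rw [c3]
    unfold w at o1 o2 ⊢
    linarith
  apply OKst_neg _ (by norm_num)
  · rw [c2]
    unfold w at o1 ⊢
    linarith
  apply OKst_pos (OKst_zero _ _) (by norm_num)
  rw [c1]
  exact w0

end Pool.Agent.H44.Seven
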