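import Pool.Agent.H44.Seven.Geom

/-!
There is no configuration of seven points in the plane which is `Good`: normalisation of a
configuration to one of the two root cases.
-/

set_option autoImplicit false

namespace Pool.Agent.H44.Seven

open Equiv

lemma Good.perm {px py : Fin 7 → ℝ} (h : Good px py) (σ : Perm (Fin 7)) :
    Good (fun i => px (σ i)) (fun i => py (σ i)) where
  far := by
    intro r s i j k l hrs hne
    exact h.far (σ r) (σ s) (σ i) (σ j) (σ k) (σ l) (fun h' => hrs (σ.injective h')) hne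
  gen := by
    intro i j k l hij hkl h1 h2
    apply h.gen (σ i) (σ j) (σ k) (σ l)
    · exact fun h' => hij (σ.injective h')
    · exact fun h' => hkl (σ.injective h')
    · exact fun h' => h1 ⟨σ.injective h'.1, σ.injective h'.2⟩
    · exact fun h' => h2 ⟨σ.injective h'.1, σ.injective h'.2⟩

lemma w_neg (px py : Fin 7 → ℝ) (i j k l : Fin 7) :
    w px (fun i => - py i) i j k l = - w px py i j k l := by
  unfold w
  ring

lemma Good.neg {px py : Fin 7 → ℝ} (h : Good px py) : Good px (fun i => - py i) where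
  far := by
    intro r s i j k l hrs hne
    rw [w_neg] at hne ⊢
    rw [w_neg, w_neg, abs_neg, abs_neg, abs_neg]
    exact h.far r s i j k l hrs (fun h' => hne (by rw [h', neg_zero]))
  gen := by
    intro i j k l hij hkl h1 h2
    rw [w_neg]
    exact neg_ne_zero.mpr (h.gen i j k l hij hkl h1 h2)

/-- root case 1 without the order of the last three points -/
lemma root1' {px py : Fin 7 → ℝ} (h : Good px py) (w0 : 0 < w px py 0 1 2 3)
    (mx : ∀ i j k l, |w px py i j k l| ≤ w px py 0 1 2 3)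
    (s5 : w px py 0 2 2 3 ≤ w px py 0 2 0 1) (s6 : 2 * w px py 0 2 0 1 ≤ w px py 0 1 2 3) :
    False := by
  classical
  let S : Finset (Perm (Fin 7)) := Finset.univ.filter fun τ => τ 0 = 0 ∧ τ 1 = 1 ∧ τ 2 = 2 ∧ τ 3 = 3
  let F : Perm (Fin 7) → ℝ := fun τ => 4 * w px py 0 (τ 4) 2 3 + 5 * w px py 0 (τ 5) 2 3 +
    6 * w px py 0 (τ 6) 2 3
  have hS : S.Nonempty := ⟨1, by simp [S]⟩
  obtain ⟨τ, hτ, hmax⟩ := Finset.exists_max_image S F hS
  have hτ' : τ 0 = 0 ∧ τ 1 = 1 ∧ τ 2 = 2 ∧ τ 3 = 3 := by simpa [S] using hτ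
  obtain ⟨t0, t1, t2, t3⟩ := hτ'
  have h45 : w px py 0 (τ 4) 2 3 ≤ w px py 0 (τ 5) 2 3 := by
    have hm : τ * swap 4 5 ∈ S := by
      simp only [S, Finset.mem_filter, Finset.mem_univ, true_and, Perm.coe_mul, Function.comp_apply]
      rw [swap_apply_of_ne_of_ne (by decide) (by decide), swap_apply_of_ne_of_ne (by decide)
        (by decide), swap_apply_of_ne_of_ne (by decide) (by decide), swap_apply_of_ne_of_ne
        (by decide) (by decide)]
      exact ⟨t0, t1, t2, t3⟩
    have := hmax _ hm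
    simp only [F, Perm.coe_mul, Function.comp_apply, swap_apply_left, swap_apply_right] at this
    rw [swap_apply_of_ne_of_ne (by decide) (by decide)] at this
    linarith
  have h56 : w px py 0 (τ 5) 2 3 ≤ w px py 0 (τ 6) 2 3 := by
    have hm : τ * swap 5 6 ∈ S := by
      simp only [S, Finset.mem_filter, Finset.mem_univ, true_and, Perm.coe_mul, Function.comp_apply]
      rw [swap_apply_of_ne_of_ne (by decide) (by decide), swap_apply_of_ne_of_ne (by decide)
        (by decide), swap_apply_of_ne_of_ne (by decide) (by decide), swap_apply_of_ne_of_ne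
        (by decide) (by decide)]
      exact ⟨t0, t1, t2, t3⟩
    have := hmax _ hm
    simp only [F, Perm.coe_mul, Function.comp_apply, swap_apply_left, swap_apply_right] at this
    rw [swap_apply_of_ne_of_ne (by decide) (by decide)] at this
    linarith
  have h' := h.perm τ
  have key : ∀ i j k l, w (fun i => px (τ i)) (fun i => py (τ i)) i j k l =
      w px py (τ i) (τ j) (τ k) (τ l) := fun _ _ _ _ => rfl
  apply root1 h'
  · rw [key, t0, t1, t2, t3]; exact w0
  · intro i j k l
    rw [key, key, t0, t1, t2, t3]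
    exact mx _ _ _ _
  · rw [key, key, t0, t1, t2, t3]; exact s5
  · rw [key, key, t0, t1, t2, t3]; exact s6
  · have hne := h'.gen 4 5 2 3 (by decide) (by decide) (by decide) (by decide)
    apply lt_of_le_of_ne _ hne.symm
    rw [key, t2, t3]
    unfold w at h45 ⊢
    linarith
  · have hne := h'.gen 5 6 2 3 (by decide) (by decide) (by decide) (by decide)
    apply lt_of_le_of_ne _ hne.symm
    rw [key, t2, t3]
    unfold w at h56 ⊢
    linarith

/-- root case 2 without the order of the last four points -/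
lemma root2' {px py : Fin 7 → ℝ} (h : Good px py) (w0 : 0 < w px py 0 1 0 2)
    (mx : ∀ i j k l, |w px py i j k l| ≤ w px py 0 1 0 2) : False := by
  classical
  let S : Finset (Perm (Fin 7)) := Finset.univ.filter fun τ => τ 0 = 0 ∧ τ 1 = 1 ∧ τ 2 = 2
  let F : Perm (Fin 7) → ℝ := fun τ => 3 * w px py 0 (τ 3) 0 2 + 4 * w px py 0 (τ 4) 0 2 +
    5 * w px py 0 (τ 5) 0 2 + 6 * w px py 0 (τ 6) 0 2
  have hS : S.Nonempty := ⟨1, by simp [S]⟩
  obtain ⟨τ, hτ, hmax⟩ := Finset.exists_max_image S F hS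
  have hτ' : τ 0 = 0 ∧ τ 1 = 1 ∧ τ 2 = 2 := by simpa [S] using hτ
  obtain ⟨t0, t1, t2⟩ := hτ'
  have h34 : w px py 0 (τ 3) 0 2 ≤ w px py 0 (τ 4) 0 2 := by
    have hm : τ * swap 3 4 ∈ S := by
      simp only [S, Finset.mem_filter, Finset.mem_univ, true_and, Perm.coe_mul, Function.comp_apply]
      rw [swap_apply_of_ne_of_ne (by decide) (by decide), swap_apply_of_ne_of_ne (by decide)
        (by decide), swap_apply_of_ne_of_ne (by decide) (by decide)]
      exact ⟨t0, t1, t2⟩
    have := hmax _ hm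
    simp only [F, Perm.coe_mul, Function.comp_apply, swap_apply_left, swap_apply_right] at this
    rw [swap_apply_of_ne_of_ne (by decide) (by decide), swap_apply_of_ne_of_ne (by decide)
      (by decide)] at this
    linarith
  have h45 : w px py 0 (τ 4) 0 2 ≤ w px py 0 (τ 5) 0 2 := by
    have hm : τ * swap 4 5 ∈ S := by
      simp only [S, Finset.mem_filter, Finset.mem_univ, true_and, Perm.coe_mul, Function.comp_apply]
      rw [swap_apply_of_ne_of_ne (by decide) (by decide), swap_apply_of_ne_of_ne (by decide)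
        (by decide), swap_apply_of_ne_of_ne (by decide) (by decide)]
      exact ⟨t0, t1, t2⟩
    have := hmax _ hm
    simp only [F, Perm.coe_mul, Function.comp_apply, swap_apply_left, swap_apply_right] at this
    rw [swap_apply_of_ne_of_ne (by decide) (by decide), swap_apply_of_ne_of_ne (by decide)
      (by decide)] at this
    linarith
  have h56 : w px py 0 (τ 5) 0 2 ≤ w px py 0 (τ 6) 0 2 := by
    have hm : τ * swap 5 6 ∈ S := by
      simp only [S, Finset.mem_filter, Finset.mem_univ, true_and, Perm.coe_mul, Function.comp_apply]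
      rw [swap_apply_of_ne_of_ne (by decide) (by decide), swap_apply_of_ne_of_ne (by decide)
        (by decide), swap_apply_of_ne_of_ne (by decide) (by decide)]
      exact ⟨t0, t1, t2⟩
    have := hmax _ hm
    simp only [F, Perm.coe_mul, Function.comp_apply, swap_apply_left, swap_apply_right] at this
    rw [swap_apply_of_ne_of_ne (by decide) (by decide), swap_apply_of_ne_of_ne (by decide)
      (by decide)] at this
    linarith
  have h' := h.perm τ
  have key : ∀ i j k l, w (fun i => px (τ i)) (fun i => py (τ i)) i j k l =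
      w px py (τ i) (τ j) (τ k) (τ l) := fun _ _ _ _ => rfl
  apply root2 h'
  · rw [key, t0, t1, t2]; exact w0
  · intro i j k l
    rw [key, key, t0, t1, t2]
    exact mx _ _ _ _
  · have hne := h'.gen 3 4 0 2 (by decide) (by decide) (by decide) (by decide)
    apply lt_of_le_of_ne _ hne.symm
    rw [key, t0, t2]
    unfold w at h34 ⊢
    linarith
  · have hne := h'.gen 4 5 0 2 (by decide) (by decide) (by decide) (by decide)
    apply lt_of_le_of_ne _ hne.symm
    rw [key, t0, t2]
    unfold w at h45 ⊢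
    linarith
  · have hne := h'.gen 5 6 0 2 (by decide) (by decide) (by decide) (by decide)
    apply lt_of_le_of_ne _ hne.symm
    rw [key, t0, t2]
    unfold w at h56 ⊢
    linarith

/-- root case 1 with the sign of the maximal cross product arbitrary -/
lemma root1s {px py : Fin 7 → ℝ} (h : Good px py)
    (mx : ∀ i j k l, |w px py i j k l| ≤ |w px py 0 1 2 3|)
    (s5 : w px py 0 1 2 3 * w px py 0 2 2 3 ≤ w px py 0 1 2 3 * w px py 0 2 0 1)
    (s6 : 2 * (w px py 0 1 2 3 * w px py 0 2 0 1) ≤ w px py 0 1 2 3 * w px py 0 1 2 3) :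
    False := by
  have hne := h.gen 0 1 2 3 (by decide) (by decide) (by decide) (by decide)
  rcases lt_or_gt_of_ne hne with h0 | h0
  · apply root1' h.neg
    · rw [w_neg]; linarith
    · intro i j k l
      rw [w_neg, w_neg, abs_neg, ← abs_of_neg h0]
      exact mx i j k l
    · rw [w_neg, w_neg]
      nlinarith
    · rw [w_neg, w_neg]
      nlinarith
  · apply root1' h h0
    · intro i j k l
      rw [← abs_of_pos h0]
      exact mx i j k l
    · nlinarith
    · nlinarith

/-- root case 2 with the sign of the maximal cross product arbitrary -/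
lemma root2s {px py : Fin 7 → ℝ} (h : Good px py)
    (mx : ∀ i j k l, |w px py i j k l| ≤ |w px py 0 1 0 2|) : False := by
  have hne := h.gen 0 1 0 2 (by decide) (by decide) (by decide) (by decide)
  rcases lt_or_gt_of_ne hne with h0 | h0
  · apply root2' h.neg
    · rw [w_neg]; linarith
    · intro i j k l
      rw [w_neg, w_neg, abs_neg, ← abs_of_neg h0]
      exact mx i j k l
  · apply root2' h h0
    intro i j k l
    rw [← abs_of_pos h0]
    exact mx i j k l

/-- root case 1 without the dihedral normalisation -/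
lemma root1d {px py : Fin 7 → ℝ} (h : Good px py)
    (mx : ∀ i j k l, |w px py i j k l| ≤ |w px py 0 1 2 3|) : False := by
  classical
  let A : Perm (Fin 7) → ℝ := fun σ => w px py (σ 0) (σ 1) (σ 2) (σ 3)
  let α : Perm (Fin 7) → ℝ := fun σ => w px py (σ 0) (σ 2) (σ 2) (σ 3)
  let β : Perm (Fin 7) → ℝ := fun σ => w px py (σ 0) (σ 2) (σ 0) (σ 1)
  let S : Finset (Perm (Fin 7)) := Finset.univ.filter fun σ => |A σ| = |w px py 0 1 2 3|
  have hS : S.Nonempty := ⟨1, by simp [S, A]⟩
  obtain ⟨σ, hσ, hmin⟩ := Finset.exists_min_image S (fun σ => A σ * (2 * α σ + β σ)) hS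
  have hσ' : |A σ| = |w px py 0 1 2 3| := by simpa [S] using hσ
  -- three transformations
  have T : ∀ τ : Perm (Fin 7), |A (σ * τ)| = |A σ| →
      A σ * (2 * α σ + β σ) ≤ A (σ * τ) * (2 * α (σ * τ) + β (σ * τ)) := by
    intro τ hτ
    apply hmin
    simp only [S, Finset.mem_filter, Finset.mem_univ, true_and]
    rw [hτ, hσ']
  have e2 : A (σ * swap 2 3) = - A σ ∧ α (σ * swap 2 3) = - α σ ∧
      β (σ * swap 2 3) = β σ - A σ := by
    simp only [A, α, β, Perm.coe_mul, Function.comp_apply, swap_apply_left, swap_apply_right]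
    rw [swap_apply_of_ne_of_ne (by decide) (by decide), swap_apply_of_ne_of_ne (by decide)
      (by decide)]
    refine ⟨?_, ?_, ?_⟩ <;> (unfold w; ring)
  have e3 : A (σ * (swap 0 2 * swap 1 3)) = - A σ ∧ α (σ * (swap 0 2 * swap 1 3)) = - β σ ∧
      β (σ * (swap 0 2 * swap 1 3)) = - α σ := by
    have q0 : (swap 0 2 * swap 1 3 : Perm (Fin 7)) 0 = 2 := by decide
    have q1 : (swap 0 2 * swap 1 3 : Perm (Fin 7)) 1 = 3 := by decide
    have q2 : (swap 0 2 * swap 1 3 : Perm (Fin 7)) 2 = 0 := by decide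
    have q3 : (swap 0 2 * swap 1 3 : Perm (Fin 7)) 3 = 1 := by decide
    have r : ∀ i, (σ * (swap 0 2 * swap 1 3) : Perm (Fin 7)) i =
        σ ((swap 0 2 * swap 1 3 : Perm (Fin 7)) i) := fun _ => rfl
    simp only [A, α, β]
    rw [r, r, r, r, q0, q1, q2, q3]
    refine ⟨?_, ?_, ?_⟩ <;> (unfold w; ring)
  have i2 := T (swap 2 3) (by rw [e2.1, abs_neg])
  rw [e2.1, e2.2.1, e2.2.2] at i2
  have i3 := T (swap 0 2 * swap 1 3) (by rw [e3.1, abs_neg])
  rw [e3.1, e3.2.1, e3.2.2] at i3
  apply root1s (h.perm σ)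
  · intro i j k l
    have : |w (fun i => px (σ i)) (fun i => py (σ i)) 0 1 2 3| = |w px py 0 1 2 3| := hσ'
    rw [this]
    exact mx _ _ _ _
  · change A σ * α σ ≤ A σ * β σ
    nlinarith
  · change 2 * (A σ * β σ) ≤ A σ * A σ
    nlinarith

lemma exists_perm4 {i j k l : Fin 7} (h1 : i ≠ j) (h2 : i ≠ k) (h3 : i ≠ l) (h4 : j ≠ k)
    (h5 : j ≠ l) (h6 : k ≠ l) : ∃ σ : Perm (Fin 7), σ 0 = i ∧ σ 1 = j ∧ σ 2 = k ∧ σ 3 = l := by
  have hp := Equiv.Perm.isMultiplyPretransitive (Fin 7) 4
  rw [MulAction.isMultiplyPretransitive_iff] at hp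
  let f : Fin 4 ↪ Fin 7 := ⟨![0, 1, 2, 3], by decide⟩
  let g : Fin 4 ↪ Fin 7 := ⟨![i, j, k, l], by
    intro a b hab
    fin_cases a <;> fin_cases b <;> simp_all⟩
  obtain ⟨σ, hσ⟩ := hp f g
  refine ⟨σ, ?_, ?_, ?_, ?_⟩
  · exact congrArg (fun e : Fin 4 ↪ Fin 7 => e 0) hσ
  · exact congrArg (fun e : Fin 4 ↪ Fin 7 => e 1) hσ
  · exact congrArg (fun e : Fin 4 ↪ Fin 7 => e 2) hσ
  · exact congrArg (fun e : Fin 4 ↪ Fin 7 => e 3) hσ

lemma exists_perm3 {i j k : Fin 7} (h1 : i ≠ j) (h2 : i ≠ k) (h4 : j ≠ k) :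
    ∃ σ : Perm (Fin 7), σ 0 = i ∧ σ 1 = j ∧ σ 2 = k := by
  have hp := Equiv.Perm.isMultiplyPretransitive (Fin 7) 3
  rw [MulAction.isMultiplyPretransitive_iff] at hp
  let f : Fin 3 ↪ Fin 7 := ⟨![0, 1, 2], by decide⟩
  let g : Fin 3 ↪ Fin 7 := ⟨![i, j, k], by
    intro a b hab
    fin_cases a <;> fin_cases b <;> simp_all⟩
  obtain ⟨σ, hσ⟩ := hp f g
  refine ⟨σ, ?_, ?_, ?_⟩
  · exact congrArg (fun e : Fin 3 ↪ Fin 7 => e 0) hσ
  · exact congrArg (fun e : Fin 3 ↪ Fin 7 => e 1) hσ
  · exact congrArg (fun e : Fin 3 ↪ Fin 7 => e 2) hσ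

/-- the case that the maximum is attained at two differences with a common starting point -/
lemma shared {px py : Fin 7 → ℝ} (h : Good px py) {i j l : Fin 7} (h1 : i ≠ j) (h2 : i ≠ l)
    (h3 : j ≠ l) (mx : ∀ a b c d, |w px py a b c d| ≤ |w px py i j i l|) : False := by
  obtain ⟨σ, s0, s1, s2⟩ := exists_perm3 h1 h2 h3
  apply root2s (h.perm σ)
  intro a b c d
  change |w px py (σ a) (σ b) (σ c) (σ d)| ≤ |w px py (σ 0) (σ 1) (σ 0) (σ 2)|
  rw [s0, s1, s2]
  exact mx _ _ _ _

theorem no_good {px py : Fin 7 → ℝ} (h : Good px py) : False := by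
  classical
  obtain ⟨⟨i, j, k, l⟩, hm⟩ := Finite.exists_max
    (fun q : Fin 7 × Fin 7 × Fin 7 × Fin 7 => |w px py q.1 q.2.1 q.2.2.1 q.2.2.2|)
  have mx : ∀ a b c d, |w px py a b c d| ≤ |w px py i j k l| := fun a b c d => hm (a, b, c, d)
  have hpos : 0 < |w px py i j k l| :=
    lt_of_lt_of_le (abs_pos.mpr (h.gen 0 1 0 2 (by decide) (by decide) (by decide) (by decide)))
      (mx 0 1 0 2)
  have hne : w px py i j k l ≠ 0 := abs_pos.mp hpos
  have hij : i ≠ j := by
    rintro rfl
    apply hne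
    unfold w
    ring
  have hkl : k ≠ l := by
    rintro rfl
    apply hne
    unfold w
    ring
  have h1 : ¬ (i = k ∧ j = l) := by
    rintro ⟨rfl, rfl⟩
    apply hne
    unfold w
    ring
  have h2 : ¬ (i = l ∧ j = k) := by
    rintro ⟨rfl, rfl⟩
    apply hne
    unfold w
    ring
  by_cases hik : i = k
  · subst hik
    exact shared h hij hkl (fun h' => h1 ⟨rfl, h'⟩) mx
  by_cases hil : i = l
  · subst hil
    have e : |w px py i j k i| = |w px py i j i k| := by
      rw [show w px py i j k i = - w px py i j i k by unfold w; ring, abs_neg]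
    rw [e] at mx
    exact shared h hij hik (fun h' => h2 ⟨rfl, h'⟩) mx
  by_cases hjk : j = k
  · subst hjk
    have e : |w px py i j j l| = |w px py j i j l| := by
      rw [show w px py i j j l = - w px py j i j l by unfold w; ring, abs_neg]
    rw [e] at mx
    exact shared h hij.symm hkl hil mx
  by_cases hjl : j = l
  · subst hjl
    have e : |w px py i j k j| = |w px py j i j k| := by
      rw [show w px py i j k j = w px py j i j k by unfold w; ring]
    rw [e] at mx
    exact shared h hij.symm hjk hik mx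
  obtain ⟨σ, s0, s1, s2, s3⟩ := exists_perm4 hij hik hil hjk hjl hkl
  apply root1d (h.perm σ)
  intro a b c d
  change |w px py (σ a) (σ b) (σ c) (σ d)| ≤ |w px py (σ 0) (σ 1) (σ 2) (σ 3)|
  rw [s0, s1, s2, s3]
  exact mx _ _ _ _

end Pool.Agent.H44.Seven
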