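import Pool.Agent.H44.Seven.Checker

/-!
Soundness of the checker of certificate trees about seven points in the plane.
-/

set_option autoImplicit false

namespace Pool.Agent.H44.Seven

open Finset

/-- the packed value of a family of 36 integer coefficients -/
def pk (C : ℕ → ℤ) : ℤ := ∑ k ∈ range 36, C k * 2 ^ (32 * k)

/-- the value of a family of 36 integer coefficients at the monomials `x_a y_b` -/
def ev (x y : ℕ → ℝ) (C : ℕ → ℤ) : ℝ := ∑ k ∈ range 36, (C k : ℝ) * (x (k / 6) * y (k % 6))

/-- the coefficient family of the monomial `x_a y_b` -/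
def dl (a b : ℕ) (k : ℕ) : ℤ := if a < 6 ∧ b < 6 ∧ k = 6 * a + b then 1 else 0

lemma dl_nonneg (a b k : ℕ) : 0 ≤ dl a b k := by unfold dl; split_ifs <;> norm_num

lemma dl_le (a b k : ℕ) : dl a b k ≤ 1 := by unfold dl; split_ifs <;> norm_num

lemma pk_dl (a b : ℕ) : pk (dl a b) = (pw a b : ℤ) := by
  unfold pk pw
  by_cases h : a < 6 ∧ b < 6
  · obtain ⟨ha, hb⟩ := h
    rw [Finset.sum_eq_single (6 * a + b)]
    · have h1 : Nat.blt a 6 = true := by simpa [Nat.blt_eq] using ha
      have h2 : Nat.blt b 6 = true := by simpa [Nat.blt_eq] using hb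
      rw [h1, h2]
      simp only [dl, ha, hb, and_self, if_true, one_mul, Bool.and_self, cond_true, Nat.cast_pow,
        Nat.cast_ofNat]
      congr 1
      ring
    · intro k _ hk
      simp [dl, hk]
    · intro hk
      exfalso
      apply hk
      rw [Finset.mem_range]
      omega
  · rw [Finset.sum_eq_zero]
    · by_cases ha : a < 6
      · have hb : ¬ b < 6 := fun hb => h ⟨ha, hb⟩
        have h2 : Nat.blt b 6 = false := by
          rw [Bool.eq_false_iff]
          intro h'
          exact hb (by simpa [Nat.blt_eq] using h')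
        rw [h2]
        simp
      · have h2 : Nat.blt a 6 = false := by
          rw [Bool.eq_false_iff]
          intro h'
          exact ha (by simpa [Nat.blt_eq] using h')
        rw [h2]
        simp
    · intro k _
      have : dl a b k = 0 := by
        unfold dl
        rw [if_neg]
        rintro ⟨ha, hb, _⟩
        exact h ⟨ha, hb⟩
      rw [this, zero_mul]

lemma ev_dl (x y : ℕ → ℝ) (hx : ∀ k, 6 ≤ k → x k = 0) (hy : ∀ k, 6 ≤ k → y k = 0) (a b : ℕ) :
    ev x y (dl a b) = x a * y b := by
  unfold ev
  by_cases h : a < 6 ∧ b < 6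
  · obtain ⟨ha, hb⟩ := h
    rw [Finset.sum_eq_single (6 * a + b)]
    · have h1 : (6 * a + b) / 6 = a := by omega
      have h2 : (6 * a + b) % 6 = b := by omega
      rw [h1, h2]
      simp [dl, ha, hb]
    · intro k _ hk
      simp [dl, hk]
    · intro hk
      exfalso
      apply hk
      rw [Finset.mem_range]
      omega
  · rw [Finset.sum_eq_zero]
    · by_cases ha : a < 6
      · have hb : ¬ b < 6 := fun hb => h ⟨ha, hb⟩
        rw [hy b (by omega), mul_zero]
      · rw [hx a (by omega), zero_mul]
    · intro k _
      have : dl a b k = 0 := by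
        unfold dl
        rw [if_neg]
        rintro ⟨ha, hb, _⟩
        exact h ⟨ha, hb⟩
      rw [this]
      simp

/-- linear combinations -/
lemma pk_add (C D : ℕ → ℤ) : pk (fun k => C k + D k) = pk C + pk D := by
  unfold pk
  rw [← Finset.sum_add_distrib]
  exact Finset.sum_congr rfl fun k _ => by ring

lemma pk_smul (m : ℤ) (C : ℕ → ℤ) : pk (fun k => m * C k) = m * pk C := by
  unfold pk
  rw [Finset.mul_sum]
  exact Finset.sum_congr rfl fun k _ => by ring

lemma ev_add (x y : ℕ → ℝ) (C D : ℕ → ℤ) : ev x y (fun k => C k + D k) = ev x y C + ev x y D := by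
  unfold ev
  rw [← Finset.sum_add_distrib]
  exact Finset.sum_congr rfl fun k _ => by push_cast; ring

lemma ev_smul (x y : ℕ → ℝ) (m : ℤ) (C : ℕ → ℤ) : ev x y (fun k => m * C k) = m * ev x y C := by
  unfold ev
  rw [Finset.mul_sum]
  exact Finset.sum_congr rfl fun k _ => by push_cast; ring

/-- the coefficient family of the cross product of the differences coded by `e` and `f` -/
def cf (e f : ℕ) (k : ℕ) : ℤ :=
  dl (e % 7) (f % 7) k + dl (e / 7) (f / 7) k + dl (f / 7) (e % 7) k + dl (f % 7) (e / 7) k +
    -1 * (dl (e % 7) (f / 7) k + dl (e / 7) (f % 7) k + dl (f % 7) (e % 7) k + dl (f / 7) (e / 7) k)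

lemma cf_le (e f k : ℕ) : |cf e f k| ≤ 4 := by
  unfold cf
  have h1 := dl_nonneg (e % 7) (f % 7) k
  have h2 := dl_nonneg (e / 7) (f / 7) k
  have h3 := dl_nonneg (f / 7) (e % 7) k
  have h4 := dl_nonneg (f % 7) (e / 7) k
  have h5 := dl_nonneg (e % 7) (f / 7) k
  have h6 := dl_nonneg (e / 7) (f % 7) k
  have h7 := dl_nonneg (f % 7) (e % 7) k
  have h8 := dl_nonneg (f / 7) (e / 7) k
  have g1 := dl_le (e % 7) (f % 7) k
  have g2 := dl_le (e / 7) (f / 7) k
  have g3 := dl_le (f / 7) (e % 7) k
  have g4 := dl_le (f % 7) (e / 7) k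
  have g5 := dl_le (e % 7) (f / 7) k
  have g6 := dl_le (e / 7) (f % 7) k
  have g7 := dl_le (f % 7) (e % 7) k
  have g8 := dl_le (f / 7) (e / 7) k
  rw [abs_le]
  constructor <;> linarith

lemma pk_cf (e f : ℕ) : pk (cf e f) = (crP e f : ℤ) - (crN e f : ℤ) := by
  have : cf e f = fun k => dl (e % 7) (f % 7) k + dl (e / 7) (f / 7) k + dl (f / 7) (e % 7) k +
    dl (f % 7) (e / 7) k + -1 * (dl (e % 7) (f / 7) k + dl (e / 7) (f % 7) k +
      dl (f % 7) (e % 7) k + dl (f / 7) (e / 7) k) := rfl
  rw [this, pk_add, pk_add, pk_add, pk_add, pk_smul, pk_add, pk_add, pk_add]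
  simp only [pk_dl, crP, crN]
  push_cast
  ring

lemma ev_cf (x y : ℕ → ℝ) (hx : ∀ k, 6 ≤ k → x k = 0) (hy : ∀ k, 6 ≤ k → y k = 0) (e f : ℕ) :
    ev x y (cf e f) = cr x y e f := by
  have : cf e f = fun k => dl (e % 7) (f % 7) k + dl (e / 7) (f / 7) k + dl (f / 7) (e % 7) k +
    dl (f % 7) (e / 7) k + -1 * (dl (e % 7) (f / 7) k + dl (e / 7) (f % 7) k +
      dl (f % 7) (e % 7) k + dl (f / 7) (e / 7) k) := rfl
  rw [this, ev_add, ev_add, ev_add, ev_add, ev_smul, ev_add, ev_add, ev_add]
  simp only [ev_dl x y hx hy, cr]
  push_cast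
  ring

/-- uniqueness of signed digits -/
lemma digits (B : ℤ) (hB : 0 < B) : ∀ (n : ℕ) (C : ℕ → ℤ), (∀ k, |C k| < B) →
    ∑ k ∈ range n, C k * B ^ k = 0 → ∀ k, k < n → C k = 0 := by
  intro n
  induction n with
  | zero => intro C _ _ k hk; omega
  | succ n ih =>
    intro C hC hs
    rw [Finset.sum_range_succ'] at hs
    have h1 : ∑ k ∈ range n, C (k + 1) * B ^ (k + 1) = B * ∑ k ∈ range n, C (k + 1) * B ^ k := by
      rw [Finset.mul_sum]
      exact Finset.sum_congr rfl fun k _ => by ring
    rw [h1, pow_zero, mul_one] at hs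
    have h2 : B ∣ C 0 := by
      refine ⟨-∑ k ∈ range n, C (k + 1) * B ^ k, ?_⟩
      linarith
    have h3 : C 0 = 0 := Int.eq_zero_of_abs_lt_dvd h2 (hC 0)
    rw [h3, add_zero] at hs
    have h4 : ∑ k ∈ range n, C (k + 1) * B ^ k = 0 := by
      rcases mul_eq_zero.mp hs with h | h
      · exact absurd h hB.ne'
      · exact h
    have h5 := ih (fun k => C (k + 1)) (fun k => hC (k + 1)) h4
    intro k hk
    cases k with
    | zero => exact h3
    | succ k => exact h5 k (by omega)

lemma ev_zero_of_pk (x y : ℕ → ℝ) (C : ℕ → ℤ) (b : ℕ) (hb : b < 2 ^ 28) (hC : ∀ k, |C k| ≤ 4 * b)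
    (h : pk C = 0) : ev x y C = 0 := by
  have h1 : ∀ k, k < 36 → C k = 0 := by
    apply digits (2 ^ 32) (by norm_num) 36 C
    · intro k
      have := hC k
      have hb' : (b : ℤ) < 2 ^ 28 := by exact_mod_cast hb
      linarith
    · rw [← h]
      unfold pk
      exact Finset.sum_congr rfl fun k _ => by rw [pow_mul]
  unfold ev
  apply Finset.sum_eq_zero
  intro k hk
  rw [h1 k (Finset.mem_range.mp hk)]
  simp

/-- the hypotheses on the configuration -/
structure Cfg (x y : ℕ → ℝ) (e₀ f₀ : ℕ) : Prop where
  hx : ∀ k, 6 ≤ k → x k = 0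
  hy : ∀ k, 6 ≤ k → y k = 0
  w0 : 0 < cr x y e₀ f₀
  mx : ∀ e f, valid e = true → valid f = true → |cr x y e f| ≤ cr x y e₀ f₀
  far : ∀ d e f, valid d = true → valid e = true → valid f = true → cr x y e f ≠ 0 →
    |cr x y e f| < 2 * |cr x y d e| + 2 * |cr x y d f|
  ne : ∀ e f, valid e = true → valid f = true → e < f → cr x y e f ≠ 0
  s5 : f₀ = 17 → cr x y 2 17 ≤ cr x y 2 1
  s6 : f₀ = 17 → 2 * cr x y 2 1 ≤ cr x y 1 17

/-- correctness of the state -/
def OKst (x y : ℕ → ℝ) (p n : ℕ) : Prop :=
  (∀ e f, f < 49 → bit p (49 * e + f) = true → 0 < cr x y e f) ∧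
  (∀ e f, f < 49 → bit n (49 * e + f) = true → cr x y e f < 0)

lemma cr_swap (x y : ℕ → ℝ) (e f : ℕ) : cr x y f e = - cr x y e f := by
  unfold cr; ring

lemma valid_lt {e : ℕ} (h : valid e = true) : e < 49 := by
  unfold valid at h
  rw [Bool.and_eq_true] at h
  simpa [Nat.blt_eq] using h.1

lemma isPos_sound {x y : ℕ → ℝ} {p n : ℕ} (hs : OKst x y p n) {e f : ℕ} (he : e < 49)
    (hf : f < 49) (h : isPos p n e f = true) : 0 < cr x y e f := by
  unfold isPos at h
  cases hb : Nat.blt e f
  · rw [hb, cond_false] at h
    have := hs.2 f e he h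
    rw [cr_swap] at this
    linarith
  · rw [hb, cond_true] at h
    exact hs.1 e f hf h

lemma isNeg_sound {x y : ℕ → ℝ} {p n : ℕ} (hs : OKst x y p n) {e f : ℕ} (he : e < 49)
    (hf : f < 49) (h : isNeg p n e f = true) : cr x y e f < 0 := by
  unfold isNeg at h
  cases hb : Nat.blt e f
  · rw [hb, cond_false] at h
    have := hs.1 f e he h
    rw [cr_swap] at this
    linarith
  · rw [hb, cond_true] at h
    exact hs.2 e f hf h

lemma withAbs_sound {x y : ℕ → ℝ} {e₀ f₀ : ℕ} (H : Cfg x y e₀ f₀) {p n : ℕ}
    (hs : OKst x y p n) {m e f : ℕ} {k : ℕ → ℕ → Bool} (h : withAbs p n m e f k = true) :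
    valid e = true ∧ valid f = true ∧ cr x y e f ≠ 0 ∧
    ∃ (D : ℕ → ℤ) (u v : ℕ), k u v = true ∧ pk D = (u : ℤ) - (v : ℤ) ∧ (∀ i, |D i| ≤ 4 * m) ∧
      ev x y D = m * |cr x y e f| := by
  unfold withAbs at h
  rw [Bool.and_eq_true, Bool.and_eq_true] at h
  obtain ⟨he, hf, h⟩ := h
  refine ⟨he, hf, ?_⟩
  have he' := valid_lt he
  have hf' := valid_lt hf
  cases hp : isPos p n e f
  · rw [hp, cond_false] at h
    cases hn : isNeg p n e f
    · rw [hn, cond_false] at h
      exact absurd h (by simp)
    · rw [hn, cond_true] at h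
      have h0 := isNeg_sound hs he' hf' hn
      refine ⟨h0.ne, fun i => -m * cf e f i, m * crN e f, m * crP e f, h, ?_, ?_, ?_⟩
      · rw [pk_smul, pk_cf]
        push_cast
        ring
      · intro i
        rw [abs_mul, abs_neg, Nat.abs_cast]
        have := cf_le e f i
        nlinarith [Nat.cast_nonneg (α := ℤ) m]
      · rw [ev_smul, ev_cf x y H.hx H.hy, abs_of_neg h0]
        push_cast
        ring
  · rw [hp, cond_true] at h
    have h0 := isPos_sound hs he' hf' hp
    refine ⟨h0.ne', fun i => m * cf e f i, m * crP e f, m * crN e f, h, ?_, ?_, ?_⟩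
    · rw [pk_smul, pk_cf]
      push_cast
      ring
    · intro i
      rw [abs_mul, Nat.abs_cast]
      have := cf_le e f i
      nlinarith [Nat.cast_nonneg (α := ℤ) m]
    · rw [ev_smul, ev_cf x y H.hx H.hy, abs_of_pos h0]
      push_cast
      ring

lemma go_sound {x y : ℕ → ℝ} {e₀ f₀ : ℕ} (H : Cfg x y e₀ f₀) {p n : ℕ}
    (hs : OKst x y p n) : ∀ (c : List ℕ) (P N b : ℕ) (st : Bool) (C : ℕ → ℤ),
      pk C = (P : ℤ) - (N : ℤ) → (∀ i, |C i| ≤ 4 * (b : ℤ)) → 0 ≤ ev x y C →
      (st = true → 0 < ev x y C) → go e₀ f₀ p n c P N b st = true → False := by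
  intro c
  induction c with
  | nil =>
    intro P N b st C h1 h2 h3 h4 h
    unfold go at h
    rw [Bool.and_eq_true, Bool.and_eq_true] at h
    obtain ⟨g1, g2, g3⟩ := h
    have g2' : P = N := by simpa using g2
    have g3' : b < 2 ^ 28 := by simpa [Nat.blt_eq] using g3
    have h5 := h4 g1
    have h6 := ev_zero_of_pk x y C b g3' h2 (by rw [h1, g2']; ring)
    rw [h6] at h5
    exact lt_irrefl _ h5
  | cons c cs ih =>
    intro P N b st C h1 h2 h3 h4 h
    rw [go] at h
    generalize c % 8 = ty at h
    generalize (c / 8) % 64 = f at h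
    generalize (c / 512) % 64 = e at h
    generalize (c / 32768) % 64 = d at h
    generalize c / 2097152 = m at h
    have hm : (0 : ℝ) ≤ m := Nat.cast_nonneg m
    have hmz : (0 : ℤ) ≤ m := Nat.cast_nonneg m
    cases t0 : Nat.beq ty 0
    · rw [t0, cond_false] at h
      cases t1 : Nat.beq ty 1
      · rw [t1, cond_false] at h
        cases t2 : Nat.beq ty 2
        · rw [t2, cond_false] at h
          cases t3 : Nat.beq ty 3
          · rw [t3, cond_false] at h
            cases t4 : Nat.beq ty 4
            · rw [t4, cond_false] at h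
              cases t5 : Nat.beq ty 5
              · rw [t5, cond_false] at h
                cases t6 : Nat.beq ty 6
                · rw [t6, cond_false] at h
                  exact absurd h (by simp)
                · -- type 6
                  rw [t6, cond_true, Bool.and_eq_true] at h
                  obtain ⟨q, h⟩ := h
                  have q' : f₀ = 17 := by simpa using q
                  have hq := H.s6 q'
                  refine ih _ _ _ _ (fun i => C i + m * (cf 1 17 i + -2 * cf 2 1 i)) ?_ ?_ ?_ ?_ h
                  · rw [pk_add, pk_smul, pk_add, pk_smul, pk_cf, pk_cf, h1]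
                    push_cast
                    ring
                  · intro i
                    have a1 := abs_le.mp (h2 i)
                    have a2 := abs_le.mp (cf_le 1 17 i)
                    have a3 := abs_le.mp (cf_le 2 1 i)
                    rw [abs_le]
                    push_cast
                    constructor <;> nlinarith
                  · rw [ev_add, ev_smul, ev_add, ev_smul, ev_cf x y H.hx H.hy,
                      ev_cf x y H.hx H.hy]
                    push_cast
                    nlinarith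
                  · intro hst
                    have := h4 hst
                    rw [ev_add, ev_smul, ev_add, ev_smul, ev_cf x y H.hx H.hy,
                      ev_cf x y H.hx H.hy]
                    push_cast
                    nlinarith
              · -- type 5
                rw [t5, cond_true, Bool.and_eq_true] at h
                obtain ⟨q, h⟩ := h
                have q' : f₀ = 17 := by simpa using q
                have hq := H.s5 q'
                refine ih _ _ _ _ (fun i => C i + m * (cf 2 1 i + -1 * cf 2 17 i)) ?_ ?_ ?_ ?_ h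
                · rw [pk_add, pk_smul, pk_add, pk_smul, pk_cf, pk_cf, h1]
                  push_cast
                  ring
                · intro i
                  have a1 := abs_le.mp (h2 i)
                  have a2 := abs_le.mp (cf_le 2 17 i)
                  have a3 := abs_le.mp (cf_le 2 1 i)
                  rw [abs_le]
                  push_cast
                  constructor <;> nlinarith
                · rw [ev_add, ev_smul, ev_add, ev_smul, ev_cf x y H.hx H.hy,
                    ev_cf x y H.hx H.hy]
                  push_cast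
                  nlinarith
                · intro hst
                  have := h4 hst
                  rw [ev_add, ev_smul, ev_add, ev_smul, ev_cf x y H.hx H.hy,
                    ev_cf x y H.hx H.hy]
                  push_cast
                  nlinarith
            · -- type 4
              rw [t4, cond_true] at h
              have hq := H.w0
              refine ih _ _ _ _ (fun i => C i + m * cf e₀ f₀ i) ?_ ?_ ?_ ?_ h
              · rw [pk_add, pk_smul, pk_cf, h1]
                push_cast
                ring
              · intro i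
                have a1 := abs_le.mp (h2 i)
                have a2 := abs_le.mp (cf_le e₀ f₀ i)
                rw [abs_le]
                push_cast
                constructor <;> nlinarith
              · rw [ev_add, ev_smul, ev_cf x y H.hx H.hy]
                push_cast
                nlinarith
              · intro hst
                rw [ev_add, ev_smul, ev_cf x y H.hx H.hy]
                push_cast
                rw [Bool.or_eq_true] at hst
                rcases hst with hst | hst
                · have := h4 hst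
                  nlinarith
                · have hm' : 0 < m := by simpa [Nat.blt_eq] using hst
                  have hm'' : (0 : ℝ) < m := by exact_mod_cast hm'
                  nlinarith
          · -- type 3
            rw [t3, cond_true] at h
            obtain ⟨vd, ve, n1, D1, u1, v1, h, p1, b1, e1⟩ := withAbs_sound H hs h
            obtain ⟨_, vf, n2, D2, u2, v2, h, p2, b2, e2⟩ := withAbs_sound H hs h
            obtain ⟨_, _, n3, D3, u3, v3, h, p3, b3, e3⟩ := withAbs_sound H hs h
            have hq := H.far d e f vd ve vf n3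
            refine ih _ _ _ _ (fun i => C i + (D1 i + (D2 i + -1 * D3 i))) ?_ ?_ ?_ ?_ h
            · rw [pk_add, pk_add, pk_add, pk_smul, h1, p1, p2, p3]
              push_cast
              ring
            · intro i
              have a0 := abs_le.mp (h2 i)
              have a1 := abs_le.mp (b1 i)
              have a2 := abs_le.mp (b2 i)
              have a3 := abs_le.mp (b3 i)
              rw [abs_le]
              push_cast at a1 a2 a3 ⊢
              constructor <;> linarith
            · rw [ev_add, ev_add, ev_add, ev_smul, e1, e2, e3]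
              push_cast
              nlinarith
            · intro hst
              rw [ev_add, ev_add, ev_add, ev_smul, e1, e2, e3]
              push_cast
              rw [Bool.or_eq_true] at hst
              rcases hst with hst | hst
              · have := h4 hst
                nlinarith
              · have hm' : 0 < m := by simpa [Nat.blt_eq] using hst
                have hm'' : (0 : ℝ) < m := by exact_mod_cast hm'
                nlinarith
        · -- type 2
          rw [t2, cond_true] at h
          obtain ⟨ve, vf, n3, D3, u3, v3, h, p3, b3, e3⟩ := withAbs_sound H hs h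
          have hq := abs_pos.mpr n3
          refine ih _ _ _ _ (fun i => C i + D3 i) ?_ ?_ ?_ ?_ h
          · rw [pk_add, h1, p3]
            push_cast
            ring
          · intro i
            have a0 := abs_le.mp (h2 i)
            have a3 := abs_le.mp (b3 i)
            rw [abs_le]
            push_cast
            constructor <;> linarith
          · rw [ev_add, e3]
            nlinarith
          · intro hst
            rw [ev_add, e3]
            rw [Bool.or_eq_true] at hst
            rcases hst with hst | hst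
            · have := h4 hst
              nlinarith
            · have hm' : 0 < m := by simpa [Nat.blt_eq] using hst
              have hm'' : (0 : ℝ) < m := by exact_mod_cast hm'
              nlinarith
      · -- type 1
        rw [t1, cond_true, Bool.and_eq_true, Bool.and_eq_true] at h
        obtain ⟨ve, vf, h⟩ := h
        have hq := abs_le.mp (H.mx e f ve vf)
        refine ih _ _ _ _ (fun i => C i + m * (cf e₀ f₀ i + cf e f i)) ?_ ?_ ?_ ?_ h
        · rw [pk_add, pk_smul, pk_add, pk_cf, pk_cf, h1]
          push_cast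
          ring
        · intro i
          have a1 := abs_le.mp (h2 i)
          have a2 := abs_le.mp (cf_le e₀ f₀ i)
          have a3 := abs_le.mp (cf_le e f i)
          rw [abs_le]
          push_cast
          constructor <;> nlinarith
        · rw [ev_add, ev_smul, ev_add, ev_cf x y H.hx H.hy, ev_cf x y H.hx H.hy]
          push_cast
          nlinarith
        · intro hst
          have := h4 hst
          rw [ev_add, ev_smul, ev_add, ev_cf x y H.hx H.hy, ev_cf x y H.hx H.hy]
          push_cast
          nlinarith
    · -- type 0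
      rw [t0, cond_true, Bool.and_eq_true, Bool.and_eq_true] at h
      obtain ⟨ve, vf, h⟩ := h
      have hq := abs_le.mp (H.mx e f ve vf)
      refine ih _ _ _ _ (fun i => C i + m * (cf e₀ f₀ i + -1 * cf e f i)) ?_ ?_ ?_ ?_ h
      · rw [pk_add, pk_smul, pk_add, pk_smul, pk_cf, pk_cf, h1]
        push_cast
        ring
      · intro i
        have a1 := abs_le.mp (h2 i)
        have a2 := abs_le.mp (cf_le e₀ f₀ i)
        have a3 := abs_le.mp (cf_le e f i)
        rw [abs_le]
        push_cast
        constructor <;> nlinarith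
      · rw [ev_add, ev_smul, ev_add, ev_smul, ev_cf x y H.hx H.hy, ev_cf x y H.hx H.hy]
        push_cast
        nlinarith
      · intro hst
        have := h4 hst
        rw [ev_add, ev_smul, ev_add, ev_smul, ev_cf x y H.hx H.hy, ev_cf x y H.hx H.hy]
        push_cast
        nlinarith

lemma known_sound {x y : ℕ → ℝ} {p n : ℕ} (hs : OKst x y p n) {e f : ℕ} (he : e < 49)
    (hf : f < 49) (h : known p n e f = true) :
    (isPos p n e f = true ∧ 0 < cr x y e f) ∨ (isPos p n e f = false ∧ cr x y e f < 0) := by
  unfold known at h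
  cases hp : isPos p n e f
  · right
    rw [hp, Bool.false_or] at h
    exact ⟨rfl, isNeg_sound hs he hf h⟩
  · left
    exact ⟨rfl, isPos_sound hs he hf hp⟩

lemma prod_sign {x y : ℕ → ℝ} {p n : ℕ} (hs : OKst x y p n) {a b c d : ℕ} (ha : a < 49)
    (hb : b < 49) (hc : c < 49) (hd : d < 49) (h₁ : known p n a b = true)
    (h₂ : known p n c d = true) :
    ((isPos p n a b == isPos p n c d) = true ∧ 0 < cr x y a b * cr x y c d) ∨
      ((isPos p n a b == isPos p n c d) = false ∧ cr x y a b * cr x y c d < 0) := by
  rcases known_sound hs ha hb h₁ with ⟨p1, q1⟩ | ⟨p1, q1⟩ <;>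
    rcases known_sound hs hc hd h₂ with ⟨p2, q2⟩ | ⟨p2, q2⟩ <;> rw [p1, p2]
  · left
    exact ⟨rfl, mul_pos q1 q2⟩
  · right
    exact ⟨rfl, mul_neg_of_pos_of_neg q1 q2⟩
  · right
    exact ⟨rfl, mul_neg_of_neg_of_pos q1 q2⟩
  · left
    exact ⟨rfl, mul_pos_of_neg_of_neg q1 q2⟩

lemma gp_identity (x y : ℕ → ℝ) (a b c d : ℕ) :
    cr x y a b * cr x y c d - cr x y a c * cr x y b d + cr x y a d * cr x y b c = 0 := by
  unfold cr
  ring

lemma gp_sound {x y : ℕ → ℝ} {p n : ℕ} (hs : OKst x y p n) {a b c d : ℕ}
    (h : gpOK p n a b c d = true) : False := by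
  unfold gpOK at h
  simp only [Bool.and_eq_true] at h
  obtain ⟨va, vb, vc, vd, k1, k2, k3, k4, k5, k6, h⟩ := h
  have ha := valid_lt va
  have hb := valid_lt vb
  have hc := valid_lt vc
  have hd := valid_lt vd
  have g := gp_identity x y a b c d
  rcases prod_sign hs ha hb hc hd k1 k2 with ⟨p1, q1⟩ | ⟨p1, q1⟩ <;>
  rcases prod_sign hs ha hc hb hd k3 k4 with ⟨p2, q2⟩ | ⟨p2, q2⟩ <;>
  rcases prod_sign hs ha hd hb hc k5 k6 with ⟨p3, q3⟩ | ⟨p3, q3⟩ <;>
  rw [p1, p2, p3] at h <;>
  first
  | linarith
  | exact absurd h (by decide)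

lemma bit_eq (m k : ℕ) : bit m k = m.testBit k := by
  unfold bit Nat.testBit
  have h : Nat.land (Nat.shiftRight m k) 1 = 1 &&& (m >>> k) := by
    rw [Nat.and_comm]
    rfl
  rw [h]
  have h2 : 1 &&& (m >>> k) = (m >>> k) % 2 := Nat.one_and_eq_mod_two _
  rw [h2]
  rcases Nat.mod_two_eq_zero_or_one (m >>> k) with h3 | h3 <;> rw [h3] <;> rfl

lemma bit_lor {m j k : ℕ} (h : bit (Nat.lor m (Nat.pow 2 j)) k = true) :
    bit m k = true ∨ k = j := by
  rw [bit_eq] at h ⊢
  have h1 : Nat.lor m (Nat.pow 2 j) = m ||| 2 ^ j := rfl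
  rw [h1, Nat.testBit_or, Bool.or_eq_true, Nat.testBit_two_pow] at h
  rcases h with h | h
  · exact Or.inl h
  · right
    have : j = k := by simpa using h
    exact this.symm

lemma OKst_pos {x y : ℕ → ℝ} {p n : ℕ} (hs : OKst x y p n) {e f : ℕ} (hf : f < 49)
    (h : 0 < cr x y e f) : OKst x y (Nat.lor p (Nat.pow 2 (49 * e + f))) n := by
  refine ⟨?_, hs.2⟩
  intro e' f' hf' hb
  rcases bit_lor hb with hb | hb
  · exact hs.1 e' f' hf' hb
  · have h1 : e' = e := by omega
    have h2 : f' = f := by omega
    rw [h1, h2]
    exact h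

lemma OKst_neg {x y : ℕ → ℝ} {p n : ℕ} (hs : OKst x y p n) {e f : ℕ} (hf : f < 49)
    (h : cr x y e f < 0) : OKst x y p (Nat.lor n (Nat.pow 2 (49 * e + f))) := by
  refine ⟨hs.1, ?_⟩
  intro e' f' hf' hb
  rcases bit_lor hb with hb | hb
  · exact hs.2 e' f' hf' hb
  · have h1 : e' = e := by omega
    have h2 : f' = f := by omega
    rw [h1, h2]
    exact h

lemma OKst_zero (x y : ℕ → ℝ) : OKst x y 0 0 := by
  have h : ∀ k, bit 0 k = true → False := by
    intro k hk
    rw [bit_eq, Nat.zero_testBit] at hk
    exact absurd hk (by simp)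
  exact ⟨fun e f _ hb => (h _ hb).elim, fun e f _ hb => (h _ hb).elim⟩

theorem chk_sound {x y : ℕ → ℝ} {e₀ f₀ : ℕ} (H : Cfg x y e₀ f₀) :
    ∀ (t : Tree) (p n : ℕ), OKst x y p n → chk e₀ f₀ t p n = true → False := by
  intro t
  induction t with
  | lp c =>
    intro p n hs h
    rw [chk] at h
    refine go_sound H hs c 0 0 0 false (fun _ => 0) ?_ ?_ ?_ ?_ h
    · unfold pk
      simp
    · intro i
      simp
    · unfold ev
      simp
    · intro h'
      exact absurd h' (by simp)
  | gp a b c d =>
    intro p n hs h
    rw [chk] at h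
    exact gp_sound hs h
  | br e f t₁ t₂ ih₁ ih₂ =>
    intro p n hs h
    rw [chk, Bool.and_eq_true, Bool.and_eq_true, Bool.and_eq_true, Bool.and_eq_true] at h
    obtain ⟨ve, vf, hlt, c1, c2⟩ := h
    have hlt' : e < f := by simpa [Nat.blt_eq] using hlt
    rcases lt_or_gt_of_ne (H.ne e f ve vf hlt') with h0 | h0
    · exact ih₁ _ _ (OKst_neg hs (valid_lt vf) h0) c1
    · exact ih₂ _ _ (OKst_pos hs (valid_lt vf) h0) c2

end Pool.Agent.H44.Seven
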